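import Pool.Agent.H93.GT.Targets

/-! Module GTH of the board gdi_modules (MP_de9001_an): the function attached to a branch. -/

namespace Pool.Agent.H61.GT

open Pool.Agent.H93.GT Pool.Agent.H87.Synth Pool.Agent.H85.SC Finset
open Pool.Agent.H93.ET (sg jj iE iA)

theorem lg_add' {a k : ℕ} (hk : k < 2 ^ a) : lg (2 ^ a + k) = a := by
  unfold lg
  rw [Nat.log_eq_iff (Or.inr ⟨by norm_num, by positivity⟩)]
  constructor
  · omega
  · rw [pow_succ]; omega

theorem gth (h1 : T_GPE) (h2 : T_GPV) : T_GTH := by
  classical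
  intro d P S v a hbr
  obtain ⟨hv0, hvS, hv⟩ := hbr
  have hstep : ∀ k, v k < v (k + 1) := fun k => by
    rw [(hv k).2]; have : 0 < 2 ^ a k := by positivity
    omega
  have hmono : StrictMono v := strictMono_nat_of_lt_succ hstep
  have hid : ∀ k, k ≤ v k := fun k => hmono.id_le k
  have hex : ∀ m, ∃ k, m < v (k + 1) := fun m => ⟨m, by have := hid (m + 1); omega⟩
  let K : ℕ → ℕ := fun m => Nat.find (hex m)
  have hK1 : ∀ m, m < v (K m + 1) := fun m => Nat.find_spec (hex m)
  have hK0 : ∀ m, v (K m) ≤ m := by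
    intro m
    rcases Nat.eq_zero_or_pos (K m) with h | h
    · rw [h, hv0]; exact Nat.zero_le _
    · have h1 := Nat.find_min (hex m) (m := K m - 1) (by
        change K m - 1 < K m
        omega)
      rw [Nat.sub_add_cancel h] at h1
      omega
  have hKu : ∀ m k, v k ≤ m → m < v (k + 1) → K m = k := by
    intro m k h1 h2
    have e1 : K m < k + 1 := hmono.lt_iff_lt.1 ((hK0 m).trans_lt h2)
    have e2 : k < K m + 1 := hmono.lt_iff_lt.1 (h1.trans_lt (hK1 m))
    omega
  let ii : ℕ → ℕ := fun m => 2 ^ a (K m) + (m - v (K m))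
  have hlt : ∀ m, m - v (K m) < 2 ^ a (K m) := by
    intro m
    have h1 := hK1 m
    rw [(hv (K m)).2] at h1
    have h2 := hK0 m
    omega
  have hlgi : ∀ m, lg (ii m) = a (K m) := fun m => lg_add' (hlt m)
  have hval : ∀ m, Valid (v (K m)) (ii m) := by
    intro m
    refine ⟨?_, ?_⟩
    · have : 0 < 2 ^ a (K m) := by positivity
      simp only [ii]; omega
    · rw [hlgi]; exact (hv _).1
  have hlvl : ∀ m, lvl (v (K m)) (ii m) = m := by
    intro m
    unfold lvl
    rw [hlgi]
    have h2 := hK0 m
    simp only [ii]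
    omega
  -- the sum
  have key : ∀ (n i : ℕ) (A B : ℂ) (T : ℕ → ℂ), 1 ≤ i →
      (∀ m, T m = if n = v (K m) ∧ i = ii m then A
        else if n = v (K m) ∧ ii m = 2 ^ lg (ii m) ∧ i = 2 ^ lg i ∧ i < ii m then B else 0) →
      ∑' m, T m = if ∃ k, n = v k ∧ i = 2 ^ lg i ∧ lg i < a k then B
        else if ∃ k, n = v k ∧ lg i = a k then A else 0 := by
    intro n i A B T hi1 hterm
    have hlgle : 2 ^ lg i ≤ i := Nat.pow_log_le_self 2 (by omega)
    have hltlg : i < 2 ^ (lg i + 1) := Nat.lt_pow_succ_log_self (by norm_num) i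
    by_cases h1 : ∃ k, n = v k ∧ i = 2 ^ lg i ∧ lg i < a k
    · rw [if_pos h1]
      obtain ⟨k, hnk, hi, hlg⟩ := h1
      have hKk : K (v k) = k := hKu _ _ le_rfl (hstep k)
      have hik : ii (v k) = 2 ^ a k := by
        simp only [ii]
        rw [hKk]; simp
      have hlt' : i < 2 ^ a k := by
        rw [hi]; exact Nat.pow_lt_pow_right (by norm_num) hlg
      rw [tsum_eq_single (v k)]
      · rw [hterm, if_neg, if_pos]
        · refine ⟨by rw [hKk]; exact hnk, ?_, hi, ?_⟩
          · rw [hlgi, hKk, hik]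
          · rw [hik]; exact hlt'
        · rintro ⟨_, h⟩
          rw [hik] at h
          omega
      · intro m hm
        rw [hterm, if_neg, if_neg]
        · rintro ⟨h2, h3, _, _⟩
          have h4 : K m = k := hmono.injective (h2.symm.trans hnk)
          apply hm
          rw [hlgi] at h3
          simp only [ii] at h3
          rw [h4] at h3
          have := hK0 m
          rw [h4] at this
          omega
        · rintro ⟨h2, h3⟩
          have h4 : K m = k := hmono.injective (h2.symm.trans hnk)
          have h5 := hlgi m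
          rw [← h3, h4] at h5
          omega
    · rw [if_neg h1]
      by_cases h2 : ∃ k, n = v k ∧ lg i = a k
      · rw [if_pos h2]
        obtain ⟨k, hnk, hlg⟩ := h2
        have hlt2 : i - 2 ^ a k < 2 ^ a k := by
          rw [← hlg]
          rw [pow_succ] at hltlg
          omega
        have hKk : K (v k + (i - 2 ^ a k)) = k := by
          refine hKu _ _ (Nat.le_add_right _ _) ?_
          rw [(hv k).2]
          omega
        have hik : ii (v k + (i - 2 ^ a k)) = i := by
          simp only [ii]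
          rw [hKk, Nat.add_sub_cancel_left]
          rw [← hlg]
          omega
        rw [tsum_eq_single (v k + (i - 2 ^ a k))]
        · rw [hterm, if_pos]
          exact ⟨by rw [hKk]; exact hnk, hik.symm⟩
        · intro m hm
          rw [hterm, if_neg, if_neg]
          · rintro ⟨h3, h4, h5, h6⟩
            have h7 : K m = k := hmono.injective (h3.symm.trans hnk)
            rw [hlgi, h7, ← hlg] at h4
            omega
          · rintro ⟨h3, h4⟩
            have h7 : K m = k := hmono.injective (h3.symm.trans hnk)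
            apply hm
            simp only [ii] at h4
            rw [h7] at h4
            have := hK0 m
            rw [h7] at this
            omega
      · rw [if_neg h2]
        have hz : ∀ m, T m = 0 := by
          intro m
          rw [hterm, if_neg, if_neg]
          · rintro ⟨h3, h4, h5, h6⟩
            apply h1
            refine ⟨K m, h3, h5, ?_⟩
            rw [h5, h4, hlgi] at h6
            exact (Nat.pow_lt_pow_iff_right (by norm_num)).1 h6
          · rintro ⟨h3, h4⟩
            exact h2 ⟨K m, h3, by rw [h4, hlgi]⟩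
        simp only [hz, tsum_zero]
  obtain ⟨hV1, hV2, hV3, hV4⟩ := h2 d P
  choose x hxn hxc using fun m => (h1 d P (v (K m)) (ii m) (hval m)).1
  choose y hyn hyc using fun m => (h1 d P (v (K m)) (ii m) (hval m)).2
  have hsum : Summable fun m => x m + y m := by
    refine Summable.add ?_ ?_
    · refine Summable.of_norm_bounded (g := fun m => 20 * (3 / 4 : ℝ) ^ m) ?_ ?_
      · exact (summable_geometric_of_lt_one (by norm_num) (by norm_num)).mul_left _
      · intro m
        have := hxn m
        rwa [hlvl m] at this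
    · refine Summable.of_norm_bounded (g := fun m => 10 * (3 / 4 : ℝ) ^ m) ?_ ?_
      · exact (summable_geometric_of_lt_one (by norm_num) (by norm_num)).mul_left _
      · intro m
        have := hyn m
        rwa [hlvl m] at this
  have hc : ∀ z, coeff (∑' m, (x m + y m)) z =
      ∑' m, (P.pmg (v (K m)) (ii m) z + P.qmg (v (K m)) (ii m) z) := by
    intro z
    rw [← coeffL_apply, (coeffL z).map_tsum hsum]
    exact tsum_congr fun m => by rw [map_add, coeffL_apply, coeffL_apply, hxc, hyc]
  refine ⟨∑' m, (x m + y m), fun n i z hreg => ?_, fun n i t κ s hvn hi1 hg hκ => ?_⟩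
  · rw [hc, key n i ((1 / 2) ^ lvl n i * (((s1 n i z : ℂ) + s2 n i z) / 4 + (s3 n i z : ℂ) / 2))
      ((1 / 2) ^ lvl n i * (((s1 n i z : ℂ) + s2 n i z) / 2)) _ hreg.1.1]
    · unfold pv
      rfl
    · intro m
      rw [hV2 _ _ _ _ z (hval m) hreg, add_zero, hV1 _ _ _ _ z (hval m) hreg]
      by_cases e1 : n = v (K m) ∧ i = ii m
      · rw [if_pos e1, if_pos e1, ← e1.1, ← e1.2]
      · rw [if_neg e1, if_neg e1]
        by_cases e2 : n = v (K m) ∧ ii m = 2 ^ lg (ii m) ∧ i = 2 ^ lg i ∧ i < ii m
        · rw [if_pos e2, if_pos e2, ← e2.1]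
        · rw [if_neg e2, if_neg e2]
  · rw [hc, key n i ((1 / 2) ^ lvl n i * (sg s : ℂ)) ((1 / 2) ^ lvl n i * (sg s : ℂ)) _ hvn.1]
    · unfold qv
      by_cases e1 : ∃ k, n = v k ∧ i = 2 ^ lg i ∧ lg i < a k
      · rw [if_pos e1, if_pos]
        obtain ⟨k, e2, e3, e4⟩ := e1
        exact ⟨k, e2, Or.inl ⟨e3, e4.le⟩⟩
      · rw [if_neg e1]
        by_cases e2 : ∃ k, n = v k ∧ lg i = a k
        · rw [if_pos e2, if_pos]
          obtain ⟨k, e3, e4⟩ := e2
          exact ⟨k, e3, Or.inr e4⟩
        · rw [if_neg e2, if_neg, zero_mul]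
          rintro ⟨k, e3, e4⟩
          rcases e4 with ⟨e5, e6⟩ | e5
          · rcases e6.lt_or_eq with e7 | e7
            · exact e1 ⟨k, e3, e5, e7⟩
            · exact e2 ⟨k, e3, e7⟩
          · exact e2 ⟨k, e3, e5⟩
    · intro m
      rw [hV3 _ _ _ _ t κ s (hval m) hvn hi1 hg hκ, zero_add,
        hV4 _ _ _ _ t κ s (hval m) hvn hi1 hg hκ]
      by_cases e1 : n = v (K m) ∧ i = ii m
      · rw [if_pos e1, if_pos e1, ← e1.1, ← e1.2]
      · rw [if_neg e1, if_neg e1]
        by_cases e2 : n = v (K m) ∧ ii m = 2 ^ lg (ii m) ∧ i = 2 ^ lg i ∧ i < ii m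
        · rw [if_pos e2, if_pos e2, ← e2.1]
        · rw [if_neg e2, if_neg e2]

end Pool.Agent.H61.GT
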